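import Pool.Agent.OddParity.GrowDefs
import Pool.Agent.Helper69_Weyl.Divisor

set_option autoImplicit false

/-!
# Row CNT: from blocks to a growing number of exceptional integers
-/

namespace Pool.Agent.OddParity.H34

open Pool.Agent.OddParity ArithmeticFunction

/-- The counted set. -/
noncomputable def BB (k : ℕ) : Finset ℕ :=
  (Finset.Ioo ((2 * k - 1) ^ 2) ((2 * k + 1) ^ 2)).filter
    (fun n => Odd n ∧ Odd (ArithmeticFunction.cardFactors n))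

lemma partner {K a : ℤ} (hK : Even K) (ha : Odd a) (h0 : 0 < a) (haK : a ≤ K) (hc : ¬ Cut K a) :
    ∃ v : ℤ, Odd v ∧ 0 < v ∧ (K - 1) ^ 2 ≤ (K + a) * v ∧ (K + a + 2) * v ≤ (K + 1) ^ 2 := by
  classical
  have hex : ∃ r : ℕ, (a - (r : ℤ)) ^ 2 ≤ ((r : ℤ) + 1) * (2 * K + (r : ℤ) - 1) := by
    refine ⟨a.toNat, ?_⟩
    have h1 : ((a.toNat : ℕ) : ℤ) = a := Int.toNat_of_nonneg h0.le
    rw [h1]
    have h2 : 0 ≤ (a + 1) * (2 * K + a - 1) := by
      apply mul_nonneg <;> linarith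
    have h3 : (a - a) ^ 2 = 0 := by ring
    rw [h3]
    exact h2
  obtain ⟨r, hr⟩ : ∃ r : ℕ, r = Nat.find hex := ⟨_, rfl⟩
  have h1 := Nat.find_spec hex
  rw [← hr] at h1
  have hodd : Odd (K - a) := hK.sub_odd ha
  have hr0 : (0 : ℤ) ≤ r := Int.natCast_nonneg r
  refine ⟨K - a + 2 * (r : ℤ), hodd.add_even (even_two_mul _), ?_, ?_, ?_⟩
  · have h2 : 0 < K - a := by
      obtain ⟨c, hc'⟩ := hodd
      omega
    linarith
  · nlinarith [h1]
  · rcases Nat.eq_zero_or_pos r with h2 | h2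
    · rw [h2]
      push_cast
      nlinarith [sq_nonneg (a + 1)]
    · have h3 := Nat.find_min hex (m := r - 1) (by omega)
      have h4 : (((r - 1 : ℕ) : ℕ) : ℤ) = (r : ℤ) - 1 := by
        push_cast [Nat.cast_sub h2]
        ring
      rw [h4] at h3
      push Not at h3
      by_contra hcon
      push Not at hcon
      apply hc
      have h5 : (1 : ℤ) ≤ r := by exact_mod_cast h2
      refine ⟨r, h5, ?_, ?_⟩
      · nlinarith [h3]
      · nlinarith [hcon]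

lemma mem_BB {k : ℕ} (hk : 1 ≤ k) {n : ℤ} (hn : Odd n) (h1 : (2 * (k : ℤ) - 1) ^ 2 ≤ n)
    (h2 : n ≤ (2 * (k : ℤ) + 1) ^ 2) (h : lam n ≠ 1) : n.natAbs ∈ BB k := by
  have hn0 : 0 ≤ n := le_trans (by positivity) h1
  have hno : Odd n.natAbs := Int.natAbs_odd.mpr hn
  have hk2 : Odd (2 * (k : ℤ) - 1) := ⟨k - 1, by ring⟩
  have hk3 : Odd (2 * (k : ℤ) + 1) := ⟨k, by ring⟩
  have hsq : ∀ x : ℤ, Odd x → lam (x ^ 2) = 1 := by
    intro x hx
    rw [pow_two, lam_mul x x hx hx]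
    exact Int.units_mul_self _
  have h3 : (2 * (k : ℤ) - 1) ^ 2 < n := by
    rcases eq_or_lt_of_le h1 with h3 | h3
    · exact absurd (by rw [← h3]; exact hsq _ hk2) h
    · exact h3
  have h4 : n < (2 * (k : ℤ) + 1) ^ 2 := by
    rcases eq_or_lt_of_le h2 with h4 | h4
    · exact absurd (by rw [h4]; exact hsq _ hk3) h
    · exact h4
  unfold BB
  rw [Finset.mem_filter, Finset.mem_Ioo]
  refine ⟨⟨?_, ?_⟩, hno, ?_⟩
  · zify [(by omega : 1 ≤ 2 * k)]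
    rw [abs_of_nonneg hn0]
    exact h3
  · zify
    rw [abs_of_nonneg hn0]
    exact h4
  · rw [← Nat.not_even_iff_odd]
    intro heven
    apply h
    unfold lam
    exact heven.neg_one_pow

lemma defect {k : ℕ} (hk : 1 ≤ k) {a : ℤ} (ha : Odd a) (h0 : 0 < a) (haK : a ≤ 2 * (k : ℤ))
    (hc : ¬ Cut (2 * (k : ℤ)) a) (hne : lam (2 * (k : ℤ) + a) ≠ lam (2 * (k : ℤ) + a + 2)) :
    ∃ n ∈ BB k, ∃ d : ℕ, d ∣ n ∧ ((d : ℤ) = 2 * k + a ∨ (d : ℤ) = 2 * k + a + 2) := by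
  obtain ⟨v, hv, hv0, h1, h2⟩ := partner (even_two_mul _) ha h0 haK hc
  have hu : Odd (2 * (k : ℤ) + a) := (even_two_mul _).add_odd ha
  have hu2 : Odd (2 * (k : ℤ) + a + 2) := hu.add_even even_two
  have key : lam ((2 * (k : ℤ) + a) * v) ≠ 1 ∨ lam ((2 * (k : ℤ) + a + 2) * v) ≠ 1 := by
    by_contra hcon
    push Not at hcon
    obtain ⟨e1, e2⟩ := hcon
    rw [lam_mul _ _ hu hv] at e1
    rw [lam_mul _ _ hu2 hv] at e2
    apply hne
    exact mul_right_cancel (e1.trans e2.symm)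
  rcases key with h | h
  · refine ⟨((2 * (k : ℤ) + a) * v).natAbs, mem_BB hk (hu.mul hv) h1 (by nlinarith) h,
      (2 * (k : ℤ) + a).natAbs, ?_, Or.inl ?_⟩
    · rw [Int.natAbs_mul]
      exact dvd_mul_right _ _
    · rw [Int.natCast_natAbs]
      exact abs_of_nonneg (by linarith)
  · refine ⟨((2 * (k : ℤ) + a + 2) * v).natAbs, mem_BB hk (hu2.mul hv) (by nlinarith) h2 h,
      (2 * (k : ℤ) + a + 2).natAbs, ?_, Or.inr ?_⟩
    · rw [Int.natAbs_mul]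
      exact dvd_mul_right _ _
    · rw [Int.natCast_natAbs]
      exact abs_of_nonneg (by linarith)

lemma count (h : BlockStmt) {k J : ℕ} (hk : 1 ≤ k) {w : ℝ} (hw : 0 < w)
    (hw4 : w ^ 4 = 2 * (k : ℝ)) (hJ : 1 ≤ J) (hJw : 10 ^ 8 * (J : ℝ) ^ 2 ≤ w) :
    (J : ℝ) ≤ ∑ n ∈ BB k, ((n.divisors.card : ℕ) : ℝ) := by
  classical
  have hJ1 : (1 : ℝ) ≤ J := by exact_mod_cast hJ
  have hw8 : (10 : ℝ) ^ 8 ≤ w := by nlinarith
  have hw2 : (10 : ℝ) ^ 8 ≤ w ^ 2 := by nlinarith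
  obtain ⟨s, hs⟩ : ∃ s : ℤ, s = ⌈w ^ 2 / 10⌉ := ⟨_, rfl⟩
  have hs1 : w ^ 2 ≤ 10 * (s : ℝ) := by
    have := Int.le_ceil (w ^ 2 / 10)
    rw [← hs] at this
    linarith
  have hs2 : 10 * (s : ℝ) ≤ w ^ 2 + 10 := by
    have := Int.ceil_lt_add_one (w ^ 2 / 10)
    rw [← hs] at this
    linarith
  have hs0 : 0 < s := by
    have : (0 : ℝ) < s := by nlinarith
    exact_mod_cast this
  have hJw2 : (J : ℝ) ≤ w := by nlinarith
  have hcov : (90 : ℝ) * s * J ≤ 10 * J * w ^ 2 := by nlinarith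
  have hfit : (90 : ℝ) * s * J ≤ 2 * k := by
    rw [← hw4]
    have h1 : 10 * (J : ℝ) ≤ w ^ 2 := by nlinarith
    have h2 : 10 * (J : ℝ) * w ^ 2 ≤ w ^ 2 * w ^ 2 :=
      mul_le_mul_of_nonneg_right h1 (by positivity)
    have h3 : w ^ 2 * w ^ 2 = w ^ 4 := by ring
    linarith
  have hfitZ : 90 * s * (J : ℤ) ≤ 2 * (k : ℤ) := by exact_mod_cast hfit
  have hblock : ∀ i : ℕ, i < J → ∃ n ∈ BB k, ∃ d : ℕ, d ∣ n ∧
      2 * (k : ℤ) + 90 * s * i ≤ d ∧ (d : ℤ) < 2 * k + 90 * s * (i + 1) := by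
    intro i hi
    have hi1 : (i : ℤ) + 1 ≤ J := by exact_mod_cast hi
    have hi0 : (0 : ℤ) ≤ i := Int.natCast_nonneg i
    have hiR : (i : ℝ) + 1 ≤ J := by exact_mod_cast hi
    by_contra hno
    apply lam_three
    refine h lam (2 * (k : ℤ)) (90 * s * i) s w (10 * J) lam_mul (even_two_mul _) hw
      (by push_cast; exact hw4) (by linarith) (by nlinarith) hs1 (by linarith)
      (by positivity) ?_ ?_
    · push_cast
      have h1 : (90 : ℝ) * s * i + 90 * s = 90 * s * (i + 1) := by ring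
      rw [h1]
      refine le_trans ?_ hcov
      exact mul_le_mul_of_nonneg_left hiR (by positivity)
    · intro a ha h1 h2 h3
      by_contra hne
      apply hno
      have h4 : 90 * s * ((i : ℤ) + 1) ≤ 90 * s * J :=
        mul_le_mul_of_nonneg_left hi1 (by positivity)
      have h5 : 90 * s * ((i : ℤ) + 1) = 90 * s * i + 90 * s := by ring
      have h6 : (0 : ℤ) ≤ 90 * s * i := by positivity
      have ha0 : 0 < a := by
        obtain ⟨c, hc⟩ := ha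
        omega
      obtain ⟨n, hn, d, hd, hd'⟩ := defect hk ha ha0 (by linarith) h3 hne
      refine ⟨n, hn, d, hd, ?_, ?_⟩
      · rcases hd' with e | e <;> rw [e] <;> linarith
      · rcases hd' with e | e <;> rw [e] <;> linarith
  choose! n hn d hd hd1 hd2 using hblock
  have hcard : (Finset.range J).card ≤ ((BB k).biUnion (fun n => n.divisors)).card := by
    apply Finset.card_le_card_of_injOn d
    · intro i hi
      have hi' : i < J := Finset.mem_range.1 hi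
      rw [Finset.mem_coe, Finset.mem_biUnion]
      refine ⟨n i, hn i hi', ?_⟩
      rw [Nat.mem_divisors]
      refine ⟨hd i hi', ?_⟩
      have h1 := hn i hi'
      unfold BB at h1
      rw [Finset.mem_filter] at h1
      intro h0
      rw [h0] at h1
      exact absurd h1.2.1 (by decide)
    · intro i hi j hj hij
      have hi' : i < J := Finset.mem_range.1 hi
      have hj' : j < J := Finset.mem_range.1 hj
      have a1 := hd1 i hi'
      have a2 := hd2 i hi'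
      have b1 := hd1 j hj'
      have b2 := hd2 j hj'
      have hij' : d i = d j := hij
      rw [hij'] at a1 a2
      have hs90 : 0 < 90 * s := by linarith
      have c1 : 90 * s * (i : ℤ) < 90 * s * (j + 1) := by linarith
      have c2 : 90 * s * (j : ℤ) < 90 * s * (i + 1) := by linarith
      have c3 := lt_of_mul_lt_mul_left c1 hs90.le
      have c4 := lt_of_mul_lt_mul_left c2 hs90.le
      omega
  rw [Finset.card_range] at hcard
  have h1 : J ≤ ∑ n ∈ BB k, n.divisors.card := hcard.trans Finset.card_biUnion_le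
  have h2 : (J : ℝ) ≤ ((∑ n ∈ BB k, n.divisors.card : ℕ) : ℝ) := by exact_mod_cast h1
  rw [Nat.cast_sum] at h2
  exact h2

/-- Row CNT. -/
theorem cnt (h : BlockStmt) : GrowStmt := by
  intro δ hδ
  obtain ⟨ε, hε⟩ : ∃ ε : ℝ, ε = (1 / 8 - δ) / 2 := ⟨_, rfl⟩
  have hε0 : 0 < ε := by rw [hε]; linarith
  obtain ⟨C, hC1, hC⟩ := Pool.Agent.Helper69_Weyl.exists_card_divisors_le ε hε0
  have h9 : (0 : ℝ) < (9 : ℝ) ^ ε := by positivity
  have hden : 0 < 2 * 10 ^ 5 * (C * (9 : ℝ) ^ ε) := by positivity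
  refine ⟨1 / (2 * 10 ^ 5 * (C * (9 : ℝ) ^ ε)), by positivity, ?_⟩
  intro k hk
  change _ ≤ (((BB k).card : ℕ) : ℝ)
  have hk1 : (1 : ℝ) ≤ k := by exact_mod_cast hk
  have hk0 : (0 : ℝ) < k := by linarith
  -- the divisor bound on the counted set
  have hdiv : ∀ n ∈ BB k, ((n.divisors.card : ℕ) : ℝ) ≤ C * ((9 : ℝ) ^ ε * (k : ℝ) ^ (2 * ε)) := by
    intro n hn
    unfold BB at hn
    rw [Finset.mem_filter, Finset.mem_Ioo] at hn
    have hn0 : n ≠ 0 := by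
      intro h0
      rw [h0] at hn
      exact absurd hn.2.1 (by decide)
    have hnle : (n : ℝ) ≤ 9 * (k : ℝ) ^ 2 := by
      have h1 : (n : ℝ) < (2 * (k : ℝ) + 1) ^ 2 := by exact_mod_cast hn.1.2
      nlinarith
    have h2 : (n : ℝ) ^ ε ≤ (9 * (k : ℝ) ^ 2) ^ ε :=
      Real.rpow_le_rpow (by positivity) hnle hε0.le
    have h3 : (9 * (k : ℝ) ^ 2) ^ ε = (9 : ℝ) ^ ε * (k : ℝ) ^ (2 * ε) := by
      rw [Real.mul_rpow (by norm_num) (by positivity), ← Real.rpow_natCast, ← Real.rpow_mul hk0.le]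
      norm_num
    rw [h3] at h2
    exact (hC n hn0).trans (mul_le_mul_of_nonneg_left h2 (by linarith))
  have hM : (1 : ℝ) ≤ C * ((9 : ℝ) ^ ε * (k : ℝ) ^ (2 * ε)) := by
    have h1 : (1 : ℝ) ≤ (9 : ℝ) ^ ε := Real.one_le_rpow (by norm_num) hε0.le
    have h2 : (1 : ℝ) ≤ (k : ℝ) ^ (2 * ε) := Real.one_le_rpow hk1 (by linarith)
    have h3 : (1 : ℝ) ≤ (9 : ℝ) ^ ε * (k : ℝ) ^ (2 * ε) := by nlinarith
    nlinarith
  have hsum : ∑ n ∈ BB k, ((n.divisors.card : ℕ) : ℝ) ≤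
      ((BB k).card : ℝ) * (C * ((9 : ℝ) ^ ε * (k : ℝ) ^ (2 * ε))) := by
    have := Finset.sum_le_card_nsmul (BB k) (fun n => ((n.divisors.card : ℕ) : ℝ)) _ hdiv
    rwa [nsmul_eq_mul] at this
  have hcard1 : (1 : ℝ) ≤ ((BB k).card : ℝ) := by
    obtain ⟨n, hn, h1, h2, h3⟩ := claim_all k hk
    have : 0 < (BB k).card := by
      apply Finset.card_pos.2
      refine ⟨n, ?_⟩
      unfold BB
      rw [Finset.mem_filter, Finset.mem_Ioo]
      exact ⟨⟨h1, h2⟩, hn, h3⟩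
    exact_mod_cast this
  -- the choice of J
  obtain ⟨J, hJdef⟩ : ∃ J : ℕ, J = ⌊(k : ℝ) ^ (1 / 8 : ℝ) / 10 ^ 5⌋₊ := ⟨_, rfl⟩
  have hJ2 : (k : ℝ) ^ (1 / 8 : ℝ) / 10 ^ 5 < J + 1 := by
    rw [hJdef]
    exact Nat.lt_floor_add_one _
  have hJ3 : (J : ℝ) ≤ (k : ℝ) ^ (1 / 8 : ℝ) / 10 ^ 5 := by
    rw [hJdef]
    exact Nat.floor_le (by positivity)
  have hmain : (J : ℝ) + 1 ≤ 2 * (((BB k).card : ℝ) * (C * ((9 : ℝ) ^ ε * (k : ℝ) ^ (2 * ε)))) := by
    have hone : (1 : ℝ) ≤ ((BB k).card : ℝ) * (C * ((9 : ℝ) ^ ε * (k : ℝ) ^ (2 * ε))) := by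
      nlinarith
    rcases Nat.eq_zero_or_pos J with h0 | h0
    · rw [h0]
      push_cast
      linarith
    · have hJ1 : (1 : ℝ) ≤ J := by exact_mod_cast h0
      have hw4 : ((2 * (k : ℝ)) ^ (1 / 4 : ℝ)) ^ 4 = 2 * (k : ℝ) := by
        rw [← Real.rpow_natCast, ← Real.rpow_mul (by positivity)]
        norm_num
      have hkw : (k : ℝ) ^ (1 / 4 : ℝ) ≤ (2 * (k : ℝ)) ^ (1 / 4 : ℝ) :=
        Real.rpow_le_rpow hk0.le (by linarith) (by norm_num)
      have hsq : ((k : ℝ) ^ (1 / 8 : ℝ)) ^ 2 = (k : ℝ) ^ (1 / 4 : ℝ) := by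
        rw [← Real.rpow_natCast, ← Real.rpow_mul hk0.le]
        norm_num
      have hJsq : 10 ^ 8 * (J : ℝ) ^ 2 ≤ (2 * (k : ℝ)) ^ (1 / 4 : ℝ) := by
        have h1 : (J : ℝ) * 10 ^ 5 ≤ (k : ℝ) ^ (1 / 8 : ℝ) := by
          rw [le_div_iff₀ (by positivity)] at hJ3
          exact hJ3
        have h2 : ((J : ℝ) * 10 ^ 5) ^ 2 ≤ ((k : ℝ) ^ (1 / 8 : ℝ)) ^ 2 :=
          pow_le_pow_left₀ (by positivity) h1 2
        rw [hsq] at h2
        nlinarith [sq_nonneg (J : ℝ)]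
      have h1 := count h hk (w := (2 * (k : ℝ)) ^ (1 / 4 : ℝ)) (by positivity) hw4 h0 hJsq
      linarith
  have hfin : (k : ℝ) ^ (1 / 8 : ℝ) / 10 ^ 5 ≤
      2 * (((BB k).card : ℝ) * (C * ((9 : ℝ) ^ ε * (k : ℝ) ^ (2 * ε)))) :=
    hJ2.le.trans hmain
  have hsplit : (k : ℝ) ^ (1 / 8 : ℝ) = (k : ℝ) ^ δ * (k : ℝ) ^ (2 * ε) := by
    rw [← Real.rpow_add hk0]
    congr 1
    rw [hε]
    ring
  have hke : (0 : ℝ) < (k : ℝ) ^ (2 * ε) := by positivity
  rw [hsplit, div_le_iff₀ (by positivity)] at hfin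
  rw [one_div, inv_mul_le_iff₀ hden]
  have hx : (k : ℝ) ^ δ * (k : ℝ) ^ (2 * ε) ≤
      (2 * 10 ^ 5 * (C * (9 : ℝ) ^ ε) * ((BB k).card : ℝ)) * (k : ℝ) ^ (2 * ε) := by
    refine hfin.trans (le_of_eq ?_)
    ring
  exact le_of_mul_le_mul_right hx hke

end Pool.Agent.OddParity.H34
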